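import Mathlib
import Pool.Agent.KS6_18.Quart.Ex

/-!
# Every convex body with a quartic support function

For every convex body whose support function is the fourth root of a quartic form, all plane
projections are linear images of completely symmetric, 1-symmetric sets; in three dimensions
these are the hyperplane projections.  This applies to every three-dimensional linear image of
the unit ball of `ℓ_{4/3}^N`, and the unit ball of `ℓ_{4/3}^3` is not an ellipsoid.
-/

open Module Pool.Agent.KS6_18.Quart

namespace Pool.Agent.Results.MP_b27533_gt.EveryQuarticBody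

/-- `n`-dimensional Euclidean space. -/
abbrev E (n : ℕ) : Type := EuclideanSpace ℝ (Fin n)

/-- `K` is a convex body whose support function is the fourth root of a quartic form. -/
def QuarticBody {n : ℕ} (K : Set (E n)) : Prop := IsConvexBody K ∧ HasQuarticSupport K

/-- Every projection of `K` onto a two-dimensional subspace is a linear image of a set that is
completely symmetric and 1-symmetric. -/
def GoodPlanarProjections {n : ℕ} (K : Set (E n)) : Prop :=
  ∀ W : Submodule ℝ (E n), finrank ℝ W = 2 →
    IsLinearImageOneSymmetricCS (W.orthogonalProjectionOnto '' K)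

/-- Every projection `K | u^⊥` is a linear image of a set that is completely symmetric and
1-symmetric. -/
def GoodHyperplaneProjections {n : ℕ} (K : Set (E n)) : Prop :=
  ∀ u : E n, ‖u‖ = 1 → IsLinearImageOneSymmetricCS (Proj u K)

/-- The vectors `a j` span the space. -/
def Spans {n N : ℕ} (a : Fin N → E n) : Prop := Submodule.span ℝ (Set.range a) = ⊤

theorem result :
    (∀ (n : ℕ) (K : Set (E n)), QuarticBody K → GoodPlanarProjections K) ∧
    (∀ K : Set (E 3), QuarticBody K → GoodHyperplaneProjections K) ∧
    (∀ (n N : ℕ) (a : Fin N → E n), Spans a → QuarticBody (lpImage a)) ∧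
    (QuarticBody ball43 ∧ ¬ IsEllipsoid ball43) := by
  refine ⟨fun n K hK W hW => projection K hK.1 hK.2 W hW, fun K hK u hu => ?_,
    fun n N a ha => ⟨lpImage_body a ha, lpImage_quartic a⟩,
    ⟨ball43_body, ?_⟩, ball43_not_ellipsoid⟩
  · have : Fact (finrank ℝ (EuclideanSpace ℝ (Fin 3)) = 2 + 1) := ⟨by simp⟩
    exact projection K hK.1 hK.2 _ (Submodule.finrank_orthogonal_span_singleton (by
      intro h; rw [h, norm_zero] at hu; norm_num at hu))
  · rw [ball43_eq]; exact lpImage_quartic stdv

end Pool.Agent.Results.MP_b27533_gt.EveryQuarticBody
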